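import Pool.Agent.U436.CP.Line
import Pool.Agent.U436.CT.Span

/-!
# The classes on `A (z) = ∑ a j * b j` with norm zero are algebraic
-/

set_option autoImplicit false

namespace Pool.Agent.U436.CP

open Finset Pool.Agent.U436.AS Pool.Agent.U436.CT

variable {k K : Type} [Field k] [Field K] {J : Type} [Fintype J] [DecidableEq J] {B : Type} [Finite B] [DecidableEq B]

/-- The norm. -/
noncomputable def nrm (T : Theory k K) (A : Polynomial k) (X : Set (VI J B → k)) : T.H X →ₗ[K] T.H X :=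
  ∑ ζ ∈ zer A, T.act X (tau ζ)

lemma nrm_apply (T : Theory k K) (A : Polynomial k) (X : Set (VI J B → k)) (x : T.H X) :
    nrm T A X x = ∑ ζ ∈ zer A, T.act X (tau ζ) x := by
  unfold nrm
  rw [LinearMap.sum_apply]

variable {T : Theory k K} {A : Polynomial k} {pl : B → J}

lemma act_nrm (hT : T.Laws) (hA : IsAdditive A) (hA0 : A ≠ 0) (l : List J) {ζ : k}
    (hζ : A.eval ζ = 0) (x : T.H (vl A pl l)) :
    T.act (vl A pl l) (tau ζ) (nrm T A (vl A pl l) x) = nrm T A (vl A pl l) x := by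
  rw [nrm_apply, map_sum, ← sum_shift hA hA0 (fun ξ => T.act (vl A pl l) (tau ξ) x) hζ]
  refine Finset.sum_congr rfl fun ξ hξ => ?_
  rw [mem_zer hA0] at hξ
  rw [← hT.act_comp (vl A pl l) (tau ζ) (tau ξ) (isZeroSet_vl A pl l) (isAut_tau hA hζ) (isAut_tau hA hξ)]
  have : (fun y : VI J B → k => tau ζ (tau ξ y)) = tau (ζ + ξ) := by
    funext y; exact tau_tau ζ ξ y
  rw [this]

lemma nrm_nrm (hT : T.Laws) (hA : IsAdditive A) (hA0 : A ≠ 0) (l : List J)
    (x : T.H (vl A pl l)) :
    nrm T A (vl A pl l) (nrm T A (vl A pl l) x) = ((zer A).card : K) • nrm T A (vl A pl l) x := by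
  have h1 : ∀ ζ ∈ zer A, T.act (vl A pl l) (tau ζ) (nrm T A (vl A pl l) x) = nrm T A (vl A pl l) x :=
    fun ζ hζ => act_nrm hT hA hA0 l ((mem_zer hA0).mp hζ) x
  rw [nrm_apply T A (vl A pl l) (nrm T A (vl A pl l) x), Finset.sum_congr rfl h1, Finset.sum_const,
    Nat.cast_smul_eq_nsmul]

/-- All classes with norm zero are algebraic. -/
def Good (T : Theory k K) (A : Polynomial k) (X : Set (VI J B → k)) : Prop :=
  ∀ x : T.H X, nrm T A X x = 0 → x ∈ T.alg X

theorem good_step [CharZero K] (hT : T.Laws) (hA : IsAdditive A) (hA0 : A ≠ 0) (l : List J) (j : J)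
    (h : Good T A (vl A pl (j :: l))) : Good T A (vl A pl l) := by
  intro x hx
  have hn := card_zer (K := K) hA hA0
  have hX := isZeroSet_vl A pl l
  have hZ := isZeroSet_vl A pl (j :: l)
  have hsub : vl A pl (j :: l) ⊆ vl A pl l := fun w hw => hw.1
  -- the restriction is zero
  have h1 : T.res (vl A pl l) (fun w => w (ib j)) x = 0 := by
    have h2 : ∀ ζ ∈ zer A, T.res (vl A pl l) (fun w => w (ib j)) (T.act (vl A pl l) (tau ζ) x) =
        T.res (vl A pl l) (fun w => w (ib j)) x := by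
      intro ζ hζ
      have hζ' := (mem_zer hA0).mp hζ
      rw [hT.act_res (vl A pl l) (fun w => w (ib j)) (tau ζ) hX (IsPol.coord _) (isAut_tau hA hζ')
        (fun w _ => tau_ib ζ w j)]
      exact hT.line _ _ (hX.opn (IsPol.coord _))
        (IsAut.ext (isAut_tau hA hζ') fun w _ => tau_ib ζ w j) (isLineAut A pl l j ζ) _
    have h3 : T.res (vl A pl l) (fun w => w (ib j)) (nrm T A (vl A pl l) x) =
        ((zer A).card : K) • T.res (vl A pl l) (fun w => w (ib j)) x := by
      rw [nrm_apply, map_sum, Finset.sum_congr rfl h2, Finset.sum_const, Nat.cast_smul_eq_nsmul]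
    rw [hx, map_zero] at h3
    exact (smul_eq_zero.mp h3.symm).resolve_left hn
  obtain ⟨y, hy⟩ := hT.exact (vl A pl l) (fun w => w (ib j)) hX (IsPol.coord _) x h1
  change T.H (vl A pl (j :: l)) at y
  change T.incl (vl A pl (j :: l)) (vl A pl l) y = x at hy
  have h4 : ∀ y' : T.H (vl A pl (j :: l)), T.incl (vl A pl (j :: l)) (vl A pl l)
      (nrm T A (vl A pl (j :: l)) y') = nrm T A (vl A pl l) (T.incl (vl A pl (j :: l)) (vl A pl l) y') := by
    intro y'
    rw [nrm_apply, nrm_apply, map_sum]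
    refine Finset.sum_congr rfl fun ζ hζ => ?_
    have hζ' := (mem_zer hA0).mp hζ
    exact (hT.act_incl _ _ _ hZ hX hsub (isAut_tau hA hζ') (isAut_tau hA hζ') y').symm
  have h5 : nrm T A (vl A pl (j :: l)) (y - ((zer A).card : K)⁻¹ • nrm T A (vl A pl (j :: l)) y) = 0 := by
    rw [map_sub, map_smul, nrm_nrm hT hA hA0, smul_smul, inv_mul_cancel₀ hn, one_smul, sub_self]
  have h6 := hT.alg_incl _ _ hZ hX hsub _ (h _ h5)
  rwa [map_sub, map_smul, h4, hy, hx, smul_zero, sub_zero] at h6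

/-- The last stratum. -/
theorem good_last (hT : T.Laws) (hA0 : A ≠ 0) (l : List J) (hl : ∀ j, j ∈ l) :
    Good T A (vl A pl l) := by
  let L : k → Set (VI J B → k) := fun ζ =>
    ({w | ∀ j, w (ib j) = 0} ∩ {w | w iz - ζ = 0}) ∩ {w | ∀ i, w (iv i) - 1 = 0}
  have h1 : vl A pl l = ⋃ ζ ∈ zer A, L ζ := by
    ext w
    rw [mem_vl, Set.mem_iUnion₂]
    constructor
    · rintro ⟨⟨h2, h3⟩, h4⟩
      have h4' : ∀ j, w (ib j) = 0 := fun j => h4 j (hl j)
      refine ⟨w iz, ?_, ⟨h4', sub_self _⟩, fun i => ?_⟩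
      · rw [mem_zer hA0, h2]
        exact Finset.sum_eq_zero fun j _ => by rw [h4' j, mul_zero]
      · have := h3 i
        rw [h4' (pl i), sub_zero, mul_one] at this
        exact sub_eq_zero.mpr this
    · rintro ⟨ζ, hζ, ⟨h2, h3⟩, h4⟩
      rw [mem_zer hA0] at hζ
      refine ⟨⟨?_, fun i => ?_⟩, fun j _ => h2 j⟩
      · rw [sub_eq_zero.mp h3, hζ]
        exact (Finset.sum_eq_zero fun j _ => by rw [h2 j, mul_zero]).symm
      · rw [h2 (pl i), sub_eq_zero.mp (h4 i)]
        ring
  have hcells := hT.cells (zer A) L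
    (fun ζ _ => ((isZeroSet_forall fun _ => IsPol.coord _).inter
      (isZeroSet_eq ((IsPol.coord _).sub (IsPol.const _)))).inter
        (isZeroSet_forall fun _ => (IsPol.coord _).sub (IsPol.const _)))
    (fun ζ _ => ?_) (fun ζ _ ξ _ hne => ?_)
  · rw [h1]
    exact fun x _ => hcells x
  · refine ⟨J, inferInstance, fun w j => w (ia j), fun t => Sum.elim (Sum.elim t fun _ => 0)
      (Sum.elim (fun _ => ζ) fun _ => 1), fun j => IsPol.coord _, ?_, fun t => ⟨⟨⟨fun j => rfl, sub_self _⟩,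
        fun i => sub_self _⟩, rfl⟩, ?_⟩
    · rintro ((j | j) | (j | j))
      · exact IsPol.coord _
      · exact IsPol.const _
      · exact IsPol.const _
      · exact IsPol.const _
    · rintro w ⟨⟨h2, h3⟩, h4⟩
      funext q
      rcases q with (j | j) | (j | j)
      · rfl
      · exact (h2 j).symm
      · exact (sub_eq_zero.mp h3).symm
      · exact (sub_eq_zero.mp (h4 j)).symm
  · rw [Set.disjoint_left]
    rintro w ⟨⟨-, h2⟩, -⟩ ⟨⟨-, h3⟩, -⟩
    exact hne ((sub_eq_zero.mp h2).symm.trans (sub_eq_zero.mp h3))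

/-- **The classes with norm zero on `A (z) = ∑ a j * b j` are algebraic.** -/
theorem good_vset [CharZero K] (hT : T.Laws) (hA : IsAdditive A) (hA0 : A ≠ 0) (pl : B → J) :
    Good T A (vset A pl) := by
  have h1 : ∀ l : List J, Good T A (vl A pl l) → Good T A (vl A pl []) := by
    intro l
    induction l with
    | nil => exact id
    | cons j l ih => exact fun h => ih (good_step hT hA hA0 l j h)
  exact h1 _ (good_last hT hA0 Finset.univ.toList fun j => Finset.mem_toList.mpr (mem_univ j))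

end Pool.Agent.U436.CP
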