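import Pool.Agent.U436.CP.PNormal
import Pool.Agent.U436.CP.Span
import Pool.Agent.U436.CT.Fin

/-!
# Products of powers of curves `A (y) = F j (x)` and their map to `A (z) = ∑ a j * b j`
-/

set_option autoImplicit false

namespace Pool.Agent.U436.CP

open Finset Pool.Agent.U436 Pool.Agent.U436.AS Pool.Agent.U436.CT

variable {k : Type} [Field k] {M : ℕ} {N d : Fin M → ℕ}

/-- The coordinates `x l`, `y l` and `s l i`. -/
abbrev PI (d N : Fin M → ℕ) : Type := (LL d ⊕ LL d) ⊕ (Σ l : LL d, Fin (N l.1))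

/-- The index of `x l`. -/
abbrev px (l : LL d) : PI d N := Sum.inl (Sum.inl l)

/-- The index of `y l`. -/
abbrev py (l : LL d) : PI d N := Sum.inl (Sum.inr l)

/-- The index of `s l i`. -/
abbrev ps (l : LL d) (i : Fin (N l.1)) : PI d N := Sum.inr ⟨l, i⟩

/-- The product of the powers `C j ^ d j` of the curves `C j : A (y) = f0 j (x) + ∑ f j i (s i)`,
`s i * (x - P j i) = 1`. -/
def ppow (A : Polynomial k) (f0 : Fin M → Polynomial k) (f : (j : Fin M) → Fin (N j) → Polynomial k)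
    (P : (j : Fin M) → Fin (N j) → k) (d : Fin M → ℕ) : Set (PI d N → k) :=
  {w | ∀ l : LL d, A.eval (w (py l)) = (f0 l.1).eval (w (px l)) + ∑ i, (f l.1 i).eval (w (ps l i)) ∧
    ∀ i, w (ps l i) * (w (px l) - P l.1 i) = 1}

/-- The action of the permutations on the indices. -/
def prm (σ : (j : Fin M) → Equiv.Perm (Fin (d j))) (l : LL d) : LL d := ⟨l.1, σ l.1 l.2⟩

lemma sum_prm {V : Type} [AddCommMonoid V] (σ : (j : Fin M) → Equiv.Perm (Fin (d j))) (g : LL d → V) :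
    ∑ l, g (prm σ l) = ∑ l, g l := by
  rw [Fintype.sum_sigma, Fintype.sum_sigma]
  exact Finset.sum_congr rfl fun j _ => Equiv.sum_comp (σ j) (fun i => g ⟨j, i⟩)

/-- The automorphism `x l ↦ x (σ l)`, `y l ↦ y (σ l) + α l`, `s l i ↦ s (σ l) i`. -/
def prho (σ : (j : Fin M) → Equiv.Perm (Fin (d j))) (α : LL d → k) (w : PI d N → k) : PI d N → k :=
  Sum.elim (Sum.elim (fun l => w (px (prm σ l))) fun l => w (py (prm σ l)) + α l)
    fun p => w (ps (prm σ p.1) p.2)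

variable {A : Polynomial k} {f0 : Fin M → Polynomial k} {f : (j : Fin M) → Fin (N j) → Polynomial k}
  {P : (j : Fin M) → Fin (N j) → k}

lemma isZeroSet_ppow (A : Polynomial k) (f0 : Fin M → Polynomial k)
    (f : (j : Fin M) → Fin (N j) → Polynomial k) (P : (j : Fin M) → Fin (N j) → k) (d : Fin M → ℕ) :
    IsZeroSet (ppow A f0 f P d) := by
  have h1 : IsZeroSet {w : PI d N → k | ∀ l : LL d, A.eval (w (py l)) - ((f0 l.1).eval (w (px l)) +
      ∑ i, (f l.1 i).eval (w (ps l i))) = 0} :=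
    isZeroSet_forall fun l => (isPol_eval A (IsPol.coord _)).sub ((isPol_eval (f0 l.1) (IsPol.coord _)).add
      (IsPol.sum _ fun i _ => isPol_eval (f l.1 i) (IsPol.coord _)))
  have h2 : IsZeroSet {w : PI d N → k | ∀ p : (Σ l : LL d, Fin (N l.1)),
      w (ps p.1 p.2) * (w (px p.1) - P p.1.1 p.2) - 1 = 0} :=
    isZeroSet_forall fun p => ((IsPol.coord _).mul ((IsPol.coord _).sub (IsPol.const _))).sub (IsPol.const _)
  have h3 := h1.inter h2
  have h4 : ({w : PI d N → k | ∀ l : LL d, A.eval (w (py l)) - ((f0 l.1).eval (w (px l)) +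
      ∑ i, (f l.1 i).eval (w (ps l i))) = 0} ∩
      {w : PI d N → k | ∀ p : (Σ l : LL d, Fin (N l.1)),
      w (ps p.1 p.2) * (w (px p.1) - P p.1.1 p.2) - 1 = 0}) = ppow A f0 f P d := by
    ext w
    constructor
    · rintro ⟨h5, h6⟩ l
      exact ⟨sub_eq_zero.mp (h5 l), fun i => sub_eq_zero.mp (h6 ⟨l, i⟩)⟩
    · intro h
      exact ⟨fun l => sub_eq_zero.mpr (h l).1, fun p => sub_eq_zero.mpr ((h p.1).2 p.2)⟩
  rw [h4] at h3
  exact h3

lemma isPolMap_prho (σ : (j : Fin M) → Equiv.Perm (Fin (d j))) (α : LL d → k) :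
    IsPolMap (prho σ α : (PI d N → k) → PI d N → k) := by
  rintro ((l | l) | p)
  · exact IsPol.coord _
  · exact (IsPol.coord _).add (IsPol.const _)
  · exact IsPol.coord _

lemma prho_mem (hA : IsAdditive A) (σ : (j : Fin M) → Equiv.Perm (Fin (d j))) {α : LL d → k}
    (hα : ∀ l, A.eval (α l) = 0) {w : PI d N → k} (hw : w ∈ ppow A f0 f P d) :
    prho σ α w ∈ ppow A f0 f P d := by
  intro l
  refine ⟨?_, fun i => (hw (prm σ l)).2 i⟩
  show A.eval (w (py (prm σ l)) + α l) = _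
  rw [hA, hα, add_zero]
  exact (hw (prm σ l)).1

lemma prho_prho (σ σ' : (j : Fin M) → Equiv.Perm (Fin (d j))) (α α' : LL d → k) (w : PI d N → k) :
    prho σ' α' (prho σ α w) = prho (fun j => σ j * σ' j) (fun l => α (prm σ' l) + α' l) w := by
  funext q
  rcases q with (l | l) | p
  · rfl
  · show w (py (prm σ (prm σ' l))) + α (prm σ' l) + α' l = w (py (prm σ (prm σ' l))) + (α (prm σ' l) + α' l)
    rw [add_assoc]
  · rfl

lemma prho_one (w : PI d N → k) : prho (fun _ => 1) (fun _ => 0) w = w := by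
  funext q
  rcases q with (l | l) | p
  · rfl
  · show w (py l) + 0 = _
    rw [add_zero]
  · rfl

lemma isAut_prho (hA : IsAdditive A) (σ : (j : Fin M) → Equiv.Perm (Fin (d j))) {α : LL d → k}
    (hα : ∀ l, A.eval (α l) = 0) : IsAut (ppow A f0 f P d) (prho σ α) := by
  have hα' : ∀ l, A.eval (-α (prm (fun j => (σ j)⁻¹) l)) = 0 := fun l => by rw [hA.map_neg, hα, neg_zero]
  refine ⟨isPolMap_prho σ α, fun w hw => prho_mem hA σ hα hw,
    prho (fun j => (σ j)⁻¹) fun l => -α (prm (fun j => (σ j)⁻¹) l), isPolMap_prho _ _,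
    fun w hw => prho_mem hA _ hα' hw, fun w _ => ?_, fun w _ => ?_⟩
  · rw [prho_prho]
    have h1 : (fun l => α (prm (fun j => (σ j)⁻¹) l) + -α (prm (fun j => (σ j)⁻¹) l)) = fun _ => (0 : k) := by
      funext l; exact add_neg_cancel _
    have h2 : (fun j => σ j * (σ j)⁻¹) = fun j => (1 : Equiv.Perm (Fin (d j))) := by
      funext j; exact mul_inv_cancel _
    rw [h1, h2, prho_one]
  · rw [prho_prho]
    have h1 : (fun l => -α (prm (fun j => (σ j)⁻¹) (prm σ l)) + α l) = fun _ => (0 : k) := by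
      funext l
      have h3 : prm (fun j => (σ j)⁻¹) (prm σ l) = l := by
        unfold prm
        obtain ⟨j, l⟩ := l
        have : (σ j)⁻¹ (σ j l) = l := (σ j).symm_apply_apply l
        show (⟨j, (σ j)⁻¹ (σ j l)⟩ : LL d) = ⟨j, l⟩
        rw [this]
      rw [h3]; exact neg_add_cancel _
    have h2 : (fun j => (σ j)⁻¹ * σ j) = fun j => (1 : Equiv.Perm (Fin (d j))) := by
      funext j; exact inv_mul_cancel _
    rw [h1, h2, prho_one]

/-! ### The map -/

/-- The product of the `-s l i`. -/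
def invp (w : PI d N → k) (b : BB N) : k := ∏ l : Fin (d b.1), -w (ps ⟨b.1, l⟩ b.2)

lemma isPol_invp (b : BB N) : IsPol fun w : PI d N → k => invp w b :=
  isPol_prod _ fun _ _ => (IsPol.coord _).neg

lemma ne_pole {w : PI d N → k} (hw : w ∈ ppow A f0 f P d) (l : LL d) (i : Fin (N l.1)) :
    w (px l) ≠ P l.1 i := by
  intro h
  have := (hw l).2 i
  rw [h, sub_self, mul_zero] at this
  exact zero_ne_one this

lemma s_eq {w : PI d N → k} (hw : w ∈ ppow A f0 f P d) (l : LL d) (i : Fin (N l.1)) :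
    w (ps l i) = (w (px l) - P l.1 i)⁻¹ :=
  eq_inv_of_mul_eq_one_left ((hw l).2 i)

lemma dtot_cfp (P : (j : Fin M) → Fin (N j) → k) (b : BB N) (t : LL d → k) :
    dtot P b (cfp t) = ∏ l : Fin (d b.1), (P b.1 b.2 - t ⟨b.1, l⟩) := by
  show dpt (P b.1) b.2 (NT.cf fun i => t ⟨b.1, i⟩) = _
  unfold dpt
  rw [eval_mpoly_cf]

lemma dtot_ne {P : (j : Fin M) → Fin (N j) → k} {t : LL d → k} :
    (∀ b, dtot P b (cfp t) ≠ 0) ↔ ∀ l i, t l ≠ P l.1 i := by
  constructor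
  · rintro h ⟨j, l⟩ i h1
    refine h ⟨j, i⟩ ?_
    rw [dtot_cfp]
    exact Finset.prod_eq_zero (mem_univ l) (by rw [h1]; exact sub_self _)
  · rintro h ⟨j, i⟩
    rw [dtot_cfp]
    exact Finset.prod_ne_zero_iff.mpr fun l _ => sub_ne_zero.mpr (h ⟨j, l⟩ i).symm

lemma inv_dtot {w : PI d N → k} (hw : w ∈ ppow A f0 f P d) (b : BB N) :
    (dtot P b (cfp fun l => w (px l)))⁻¹ = invp w b := by
  unfold invp
  rw [dtot_cfp, ← Finset.prod_inv_distrib]
  refine Finset.prod_congr rfl fun l _ => ?_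
  rw [s_eq hw, ← neg_sub, inv_neg]

variable {s : ℕ} {r0 : Fin M → ℕ} {r : (j : Fin M) → Fin (N j) → ℕ}

/-- The polynomial form of the map. -/
noncomputable def pmap (PΦ : JP r0 r s ⊕ JP r0 r s → MvPolynomial (LL d ⊕ BB N) k) (c : Fin M → k) (c0 : k)
    (lam : BB N → k) (w : PI d N → k) : VI (JP r0 r s) (BB N) → k :=
  Sum.elim (fun q => MvPolynomial.eval (Sum.elim (cfp fun l => w (px l)) (invp w)) (PΦ q))
    (Sum.elim (fun _ => ∑ l : LL d, c l.1 * w (py l) - c0) fun b => (lam b)⁻¹ * invp w b)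

variable {c : Fin M → k} {κ c0 : k} {lam : BB N → k}
  {Φ : (LL d → k) → JP r0 r s ⊕ JP r0 r s → k} {Ψ : (JP r0 r s ⊕ JP r0 r s → k) → LL d → k}
  {PΦ : JP r0 r s ⊕ JP r0 r s → MvPolynomial (LL d ⊕ BB N) k}
  {PΨ : LL d → MvPolynomial ((JP r0 r s ⊕ JP r0 r s) ⊕ BB N) k}

lemma isPol_cfp (l : LL d) : IsPol fun t : LL d → k => cfp t l :=
  (isPol_cf l.2).comp (Φ := fun (t : LL d → k) i => t ⟨l.1, i⟩) fun i => IsPol.coord _

lemma isPolMap_pmap : IsPolMap (pmap PΦ c c0 lam) := by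
  rintro (q | (q | b))
  · show IsPol fun w : PI d N → k =>
      MvPolynomial.eval (Sum.elim (cfp fun l => w (px l)) (invp w)) (PΦ q)
    have h1 : IsPol fun y : LL d ⊕ BB N → k => MvPolynomial.eval y (PΦ q) := ⟨PΦ q, fun _ => rfl⟩
    refine h1.comp (Φ := fun w : PI d N → k => Sum.elim (cfp fun l => w (px l)) (invp w)) ?_
    rintro (l | b)
    · exact (isPol_cfp l).comp (Φ := fun (w : PI d N → k) l => w (px l)) fun l => IsPol.coord _
    · exact isPol_invp b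
  · exact (IsPol.sum _ fun l _ => (IsPol.const _).mul (IsPol.coord _)).sub (IsPol.const _)
  · exact (IsPol.const _).mul (isPol_invp b)

/-- The data of the normal form. -/
structure NF (f0 : Fin M → Polynomial k) (f : (j : Fin M) → Fin (N j) → Polynomial k)
    (P : (j : Fin M) → Fin (N j) → k) (c : Fin M → k) (κ : k) (lam : BB N → k)
    (Φ : (LL d → k) → JP r0 r s ⊕ JP r0 r s → k) (Ψ : (JP r0 r s ⊕ JP r0 r s → k) → LL d → k)
    (PΦ : JP r0 r s ⊕ JP r0 r s → MvPolynomial (LL d ⊕ BB N) k)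
    (PΨ : LL d → MvPolynomial ((JP r0 r s ⊕ JP r0 r s) ⊕ BB N) k) : Prop where
  lam_ne : ∀ b, lam b ≠ 0
  dv : ∀ a b, dab b (Φ a) = lam b * dtot P b a
  pΦ : ∀ q (a : LL d → k), (∀ b, dtot P b a ≠ 0) →
    Φ a q = MvPolynomial.eval (Sum.elim a fun b => (dtot P b a)⁻¹) (PΦ q)
  pΨ : ∀ l (x : JP r0 r s ⊕ JP r0 r s → k), (∀ b, dab b x ≠ 0) →
    Ψ x l = MvPolynomial.eval (Sum.elim x fun b => (dab b x)⁻¹) (PΨ l)
  nΨ : ∀ x, (∀ b, dab b x ≠ 0) → ∀ b, dtot P b (Ψ x) ≠ 0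
  ΨΦ : ∀ a, (∀ b, dtot P b a ≠ 0) → Ψ (Φ a) = a
  ΦΨ : ∀ x, (∀ b, dab b x ≠ 0) → Φ (Ψ x) = x
  form : ∀ t : LL d → k, (∀ l i, t l ≠ P l.1 i) →
    ∑ l, c l.1 * ((f0 l.1).eval (t l) + ∑ i, (f l.1 i).eval ((t l - P l.1 i)⁻¹)) =
      κ + ∑ q, Φ (cfp t) (Sum.inl q) * Φ (cfp t) (Sum.inr q)

section nf

variable (h : NF f0 f P c κ lam Φ Ψ PΦ PΨ)

include h

lemma NF.apply_inl {w : PI d N → k} (hw : w ∈ ppow A f0 f P d) (q : JP r0 r s ⊕ JP r0 r s) :
    pmap PΦ c c0 lam w (Sum.inl q) = Φ (cfp fun l => w (px l)) q := by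
  have hne : ∀ b, dtot P b (cfp fun l => w (px l)) ≠ 0 := dtot_ne.mpr fun l i => ne_pole hw l i
  rw [h.pΦ q _ hne]
  have hinv : (fun b => (dtot P b (cfp fun l => w (px l)))⁻¹) = invp w := by
    funext b; exact inv_dtot hw b
  rw [hinv]
  rfl

lemma NF.apply_iv {w : PI d N → k} (hw : w ∈ ppow A f0 f P d) (b : BB N) :
    pmap PΦ c c0 lam w (iv b) = (dab b (Φ (cfp fun l => w (px l))))⁻¹ := by
  rw [h.dv, mul_inv, inv_dtot hw]
  rfl

lemma NF.dab_ne {w : PI d N → k} (hw : w ∈ ppow A f0 f P d) (b : BB N) :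
    dab b (Φ (cfp fun l => w (px l))) ≠ 0 := by
  rw [h.dv]
  exact mul_ne_zero (h.lam_ne b) ((dtot_ne.mpr fun l i => ne_pole hw l i) b)

lemma NF.mem (hA : IsAdditive A) (hAc : ∀ j y, A.eval (c j * y) = c j * A.eval y) (hc0 : A.eval c0 = κ)
    {w : PI d N → k} (hw : w ∈ ppow A f0 f P d) :
    pmap PΦ c c0 lam w ∈ vset A (plp : BB N → JP r0 r s) := by
  refine ⟨?_, fun b => ?_⟩
  · show A.eval (∑ l : LL d, c l.1 * w (py l) - c0) =
      ∑ q, pmap PΦ c c0 lam w (Sum.inl (Sum.inl q)) * pmap PΦ c c0 lam w (Sum.inl (Sum.inr q))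
    have h1 : ∀ l ∈ (univ : Finset (LL d)), A.eval (c l.1 * w (py l)) =
        c l.1 * ((f0 l.1).eval (w (px l)) + ∑ i, (f l.1 i).eval ((w (px l) - P l.1 i)⁻¹)) := by
      intro l _
      rw [hAc, (hw l).1]
      congr 2
      exact Finset.sum_congr rfl fun i _ => by rw [s_eq hw]
    rw [hA.map_sub, hA.map_sum, hc0, Finset.sum_congr rfl h1,
      h.form (fun l => w (px l)) fun l i => ne_pole hw l i, add_sub_cancel_left]
    exact Finset.sum_congr rfl fun q _ => by rw [h.apply_inl hw, h.apply_inl hw]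
  · rw [h.apply_iv hw]
    show (dab b (Φ (cfp fun l => w (px l))))⁻¹ * (1 - pmap PΦ c c0 lam w (Sum.inl (Sum.inr (plp b)))) = 1
    rw [h.apply_inl hw]
    exact inv_mul_cancel₀ (h.dab_ne hw b)

lemma NF.surj [IsAlgClosed k] (hA : IsAdditive A) (hA0 : A ≠ 0)
    (hAc : ∀ j y, A.eval (c j * y) = c j * A.eval y) (hc : ∀ j, c j ≠ 0) (hc0 : A.eval c0 = κ) (l0 : LL d)
    {y : VI (JP r0 r s) (BB N) → k} (hy : y ∈ vset A (plp : BB N → JP r0 r s)) :
    ∃ w ∈ ppow A f0 f P d, pmap PΦ c c0 lam w = y := by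
  classical
  obtain ⟨h1, h2⟩ := hy
  set x : JP r0 r s ⊕ JP r0 r s → k := fun q => y (Sum.inl q) with hx
  have hx' : ∀ b, dab b x ≠ 0 := by
    intro b h3
    have := h2 b
    have h4 : 1 - y (ib (plp b)) = 0 := h3
    rw [h4, mul_zero] at this
    exact zero_ne_one this
  have ha : ∀ j, ∃ t : Fin (d j) → k, NT.cf t = fun i => Ψ x ⟨j, i⟩ := fun j => NT.exists_cf _
  choose t ht using ha
  have hcf : cfp (fun l : LL d => t l.1 l.2) = Ψ x := by
    funext l
    show NT.cf (fun i => t l.1 i) l.2 = _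
    exact congrFun (ht l.1) l.2
  have htP : ∀ (l : LL d) i, t l.1 l.2 ≠ P l.1 i := by
    have h3 := h.nΨ x hx'
    rw [← hcf] at h3
    exact dtot_ne.mp h3
  choose v hv using fun l : LL d => hA.surj hA0 ((f0 l.1).eval (t l.1 l.2) +
    ∑ i, (f l.1 i).eval ((t l.1 l.2 - P l.1 i)⁻¹))
  set δ : k := (y iz + c0 - ∑ l : LL d, c l.1 * v l) with hδ
  have hAδ : A.eval δ = 0 := by
    have h4 : ∀ l ∈ (univ : Finset (LL d)), A.eval (c l.1 * v l) =
        c l.1 * ((f0 l.1).eval (t l.1 l.2) + ∑ i, (f l.1 i).eval ((t l.1 l.2 - P l.1 i)⁻¹)) :=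
      fun l _ => by rw [hAc, hv]
    have h5 := h.form (fun l => t l.1 l.2) htP
    rw [hδ, hA.map_sub, hA, hA.map_sum, Finset.sum_congr rfl h4, h5, hc0, hcf, h.ΦΨ x hx', h1]
    show ∑ q, x (Sum.inl q) * x (Sum.inr q) + κ - (κ + ∑ q, x (Sum.inl q) * x (Sum.inr q)) = 0
    ring
  have hη : A.eval (δ / c l0.1) = 0 := by
    have h6 := hAc l0.1 (δ / c l0.1)
    rw [mul_div_cancel₀ _ (hc l0.1), hAδ] at h6
    exact (mul_eq_zero.mp h6.symm).resolve_left (hc l0.1)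
  let w : PI d N → k := Sum.elim (Sum.elim (fun l => t l.1 l.2) fun l => v l + if l = l0 then δ / c l0.1 else 0)
    fun p => (t p.1.1 p.1.2 - P p.1.1 p.2)⁻¹
  have hw : w ∈ ppow A f0 f P d := by
    intro l
    refine ⟨?_, fun i => ?_⟩
    · show A.eval (v l + if l = l0 then δ / c l0.1 else 0) = _
      rw [hA, hv]
      split_ifs
      · rw [hη, add_zero]
        rfl
      · rw [hA.map_zero, add_zero]
        rfl
    · show (t l.1 l.2 - P l.1 i)⁻¹ * (t l.1 l.2 - P l.1 i) = 1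
      exact inv_mul_cancel₀ (sub_ne_zero.mpr (htP l i))
  refine ⟨w, hw, ?_⟩
  have hΦx : Φ (cfp fun l => w (px l)) = x := by
    show Φ (cfp fun l : LL d => t l.1 l.2) = x
    rw [hcf, h.ΦΨ x hx']
  funext q
  rcases q with q | (q | b)
  · rw [h.apply_inl hw, hΦx]
  · show ∑ l : LL d, c l.1 * (v l + if l = l0 then δ / c l0.1 else 0) - c0 = y iz
    have h7 : ∀ l ∈ (univ : Finset (LL d)), c l.1 * (v l + if l = l0 then δ / c l0.1 else 0) =
        c l.1 * v l + if l = l0 then δ else 0 := by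
      intro l _
      split_ifs with hl
      · rw [hl, mul_add, mul_div_cancel₀ _ (hc l0.1)]
      · rw [add_zero, add_zero]
    rw [Finset.sum_congr rfl h7, Finset.sum_add_distrib, Finset.sum_ite_eq' univ l0, if_pos (mem_univ _), hδ]
    ring
  · show pmap PΦ c c0 lam w (iv b) = y (iv b)
    rw [h.apply_iv hw, hΦx]
    exact (eq_inv_of_mul_eq_one_left (h2 b)).symm

lemma NF.fibres_mp (hA : IsAdditive A) {w w' : PI d N → k} (hw : w ∈ ppow A f0 f P d)
    (hw' : w' ∈ ppow A f0 f P d) (he : pmap PΦ c c0 lam w = pmap PΦ c c0 lam w') :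
      ∃ (σ : (j : Fin M) → Equiv.Perm (Fin (d j))) (α : LL d → k), (∀ l, A.eval (α l) = 0) ∧
        ∑ l, c l.1 * α l = 0 ∧ w' = prho σ α w := by
  have h1 : Φ (cfp fun l => w (px l)) = Φ (cfp fun l => w' (px l)) := by
    funext q
    rw [← h.apply_inl (c0 := c0) hw, ← h.apply_inl (c0 := c0) hw', he]
  have h2 : (cfp fun l => w (px l)) = (cfp fun l => w' (px l)) := by
    rw [← h.ΨΦ _ (dtot_ne.mpr fun l i => ne_pole hw l i), ← h.ΨΦ _ (dtot_ne.mpr fun l i => ne_pole hw' l i),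
      h1]
  have h3 : ∀ j, ∃ σ : Equiv.Perm (Fin (d j)), ∀ i, w' (px ⟨j, i⟩) = w (px ⟨j, σ i⟩) := by
    intro j
    have h10 : NT.cf (fun i => w (px ⟨j, i⟩)) = NT.cf (fun i => w' (px ⟨j, i⟩)) := by
      funext i
      exact congrFun h2 ⟨j, i⟩
    exact NT.cf_eq_iff.mp h10
  choose σ hσ using h3
  have h4 : ∑ l : LL d, c l.1 * w (py l) - c0 = ∑ l : LL d, c l.1 * w' (py l) - c0 :=
    congrFun he (iz : VI (JP r0 r s) (BB N))
  have h4' : ∑ l : LL d, c l.1 * w (py l) = ∑ l : LL d, c l.1 * w' (py l) := sub_left_inj.mp h4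
  have hx : ∀ l : LL d, w' (px l) = w (px (prm σ l)) := fun l => hσ l.1 l.2
  have hs : ∀ (l : LL d) (i : Fin (N l.1)), w' (ps l i) = w (ps (prm σ l) i) := by
    intro l i
    have h8 : w (ps (prm σ l) i) = (w (px (prm σ l)) - P l.1 i)⁻¹ := s_eq hw (prm σ l) i
    rw [h8, s_eq hw', hx]
  refine ⟨σ, fun l => w' (py l) - w (py (prm σ l)), fun l => ?_, ?_, ?_⟩
  · have h8 : A.eval (w (py (prm σ l))) = (f0 l.1).eval (w (px (prm σ l))) +
        ∑ i : Fin (N l.1), (f l.1 i).eval (w (ps (prm σ l) i)) := (hw (prm σ l)).1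
    rw [hA.map_sub, (hw' l).1, h8, hx, sub_eq_zero]
    congr 1
    exact Finset.sum_congr rfl fun i _ => by rw [hs]
  · have h7 : ∑ l : LL d, c l.1 * w (py (prm σ l)) = ∑ l : LL d, c l.1 * w (py l) :=
      sum_prm σ fun l => c l.1 * w (py l)
    simp only [mul_sub, Finset.sum_sub_distrib]
    rw [h7, h4', sub_self]
  · funext q
    rcases q with (l | l) | ⟨l, i⟩
    · exact hx l
    · show w' (py l) = w (py (prm σ l)) + (w' (py l) - w (py (prm σ l)))
      ring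
    · exact hs l i

lemma NF.fibres_mpr {w w' : PI d N → k} (hw : w ∈ ppow A f0 f P d)
    (hw' : w' ∈ ppow A f0 f P d) {σ : (j : Fin M) → Equiv.Perm (Fin (d j))} {α : LL d → k}
    (hα0 : ∑ l, c l.1 * α l = 0) (e : w' = prho σ α w) :
      pmap PΦ c c0 lam w = pmap PΦ c c0 lam w' := by
  have hx : ∀ l : LL d, w' (px l) = w (px (prm σ l)) := fun l => by rw [e]; rfl
  have h2 : (cfp fun l => w' (px l)) = (cfp fun l => w (px l)) := by
    funext l
    exact (congrFun (NT.cf_eq_iff.mpr ⟨σ l.1, fun i => hx ⟨l.1, i⟩⟩) l.2).symm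
  funext q
  rcases q with q | (q | b)
  · rw [h.apply_inl hw, h.apply_inl hw', h2]
  · have h9 : ∀ l : LL d, w' (py l) = w (py (prm σ l)) + α l := fun l => by rw [e]; rfl
    show ∑ l : LL d, c l.1 * w (py l) - c0 = ∑ l : LL d, c l.1 * w' (py l) - c0
    have h7 : ∑ l : LL d, c l.1 * w (py (prm σ l)) = ∑ l : LL d, c l.1 * w (py l) :=
      sum_prm σ fun l => c l.1 * w (py l)
    simp only [h9, mul_add, Finset.sum_add_distrib]
    rw [h7, hα0, add_zero]
  · show pmap PΦ c c0 lam w (iv b) = pmap PΦ c c0 lam w' (iv b)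
    rw [h.apply_iv hw, h.apply_iv hw', h2]

end nf

end Pool.Agent.U436.CP
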