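import Pool.Agent.U436.CP.PMain

/-!
# The theorem with the orders of the poles
-/

set_option autoImplicit false

namespace Pool.Agent.U436.CP

open Finset Pool.Agent.U436 Pool.Agent.U436.AS Pool.Agent.U436.CT

theorem weil_algebraic_orders {k : Type} [Field k] [IsAlgClosed k] {K : Type} [Field K] [CharZero K]
    {T : Theory k K} (hT : T.Laws) {A : Polynomial k} (hA : IsAdditive A) (hA0 : A ≠ 0) {M : ℕ}
    {N d : Fin M → ℕ} {f0 : Fin M → Polynomial k} {f : (j : Fin M) → Fin (N j) → Polynomial k}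
    {P : (j : Fin M) → Fin (N j) → k} (hP : ∀ j, Function.Injective (P j))
    (hm0 : ∀ j, ((f0 j).natDegree : k) ≠ 0) (hm : ∀ j i, ((f j i).natDegree : k) ≠ 0)
    (hd : ∀ j, d j + 1 = (f0 j).natDegree + ∑ i, ((f j i).natDegree + 1)) (he : Even (∑ j, d j))
    {c : Fin M → k} (hc : ∀ j, c j ≠ 0) (hAc : ∀ j y, A.eval (c j * y) = c j * A.eval y)
    (l0 : Σ j : Fin M, Fin (d j)) (x : T.H (ppow A f0 f P d))
    (h1 : ∀ (σ : (j : Fin M) → Equiv.Perm (Fin (d j))) (α : (Σ j : Fin M, Fin (d j)) → k),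
      (∀ l, A.eval (α l) = 0) → ∑ l, c l.1 * α l = 0 → T.act _ (prho σ α) x = x)
    (h2 : ∑ ζ ∈ zer A, T.act _ (prho (fun _ => 1) (Pi.single l0 ζ)) x = 0) :
    x ∈ T.alg (ppow A f0 f P d) := by
  have h01 : ∀ j, 1 ≤ (f0 j).natDegree := by
    intro j
    by_contra h
    exact hm0 j (by rw [show (f0 j).natDegree = 0 by omega, Nat.cast_zero])
  have hi1 : ∀ j i, 1 ≤ (f j i).natDegree := by
    intro j i
    by_contra h
    exact hm j i (by rw [show (f j i).natDegree = 0 by omega, Nat.cast_zero])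
  let r0 : Fin M → ℕ := fun j => ((f0 j).natDegree - 1) / 2
  let ε0 : Fin M → ℕ := fun j => ((f0 j).natDegree - 1) % 2
  let r : (j : Fin M) → Fin (N j) → ℕ := fun j i => ((f j i).natDegree - 1) / 2
  let ε : (j : Fin M) → Fin (N j) → ℕ := fun j i => ((f j i).natDegree - 1) % 2
  have e0 : ∀ j, (f0 j).natDegree = r0 j + ε0 j + r0 j + 1 := by
    intro j
    have := h01 j
    simp only [r0, ε0]
    omega
  have ei : ∀ j i, (f j i).natDegree = r j i + ε j i + r j i + 1 := by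
    intro j i
    have := hi1 j i
    simp only [r, ε]
    omega
  have hε0 : ∀ j, ε0 j ≤ 1 := fun j => by simp only [ε0]; omega
  have hε : ∀ j i, ε j i ≤ 1 := fun j i => by simp only [ε]; omega
  have hd' : ∀ j, d j = dd (r0 j) (ε0 j) (r j) (ε j) 0 := by
    intro j
    have h3 : ∑ i : Fin (N j) ⊕ Fin 0, ee (r j) (ε j) i = ∑ i : Fin (N j), ((f j i).natDegree + 1) := by
      rw [Fintype.sum_sum_type]
      simp only [Finset.univ_eq_empty, Finset.sum_empty, add_zero]
      exact Finset.sum_congr rfl fun i _ => by rw [ei j i]; rfl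
    show d j = r0 j + ε0 j + r0 j + ∑ i : Fin (N j) ⊕ Fin 0, ee (r j) (ε j) i
    rw [h3]
    have := hd j
    have := e0 j
    omega
  have h5 : ∀ j, d j = (ε0 j + ∑ i, ε j i) + 2 * (r0 j + ∑ i, (r j i + 1)) := by
    intro j
    have h4 : ∑ i, ((f j i).natDegree + 1) = ∑ i, ε j i + 2 * ∑ i, (r j i + 1) := by
      rw [Finset.mul_sum, ← Finset.sum_add_distrib]
      exact Finset.sum_congr rfl fun i _ => by rw [ei j i]; ring
    have := hd j
    have := e0 j
    omega
  have hs : ∃ s, ∑ j, (ε0 j + ∑ i, ε j i) = 2 * s := by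
    obtain ⟨t, ht⟩ := he
    have h6 : ∑ j, d j = ∑ j, (ε0 j + ∑ i, ε j i) + 2 * ∑ j, (r0 j + ∑ i, (r j i + 1)) := by
      rw [Finset.mul_sum, ← Finset.sum_add_distrib]
      exact Finset.sum_congr rfl fun j _ => h5 j
    exact ⟨t - ∑ j, (r0 j + ∑ i, (r j i + 1)), by omega⟩
  obtain ⟨s, hs⟩ := hs
  exact weil_algebraic hT hA hA0 hε0 hε hs e0 (fun j => by rw [← e0 j]; exact hm0 j) ei
    (fun j i => by rw [← ei j i]; exact hm j i) hP hc hAc hd' l0 x h1 h2

end Pool.Agent.U436.CP
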