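import Pool.Agent.U436.CP.PCover

/-!
# The Weil classes on the products of powers of the curves `A (y) = F j (x)` are algebraic
-/

set_option autoImplicit false

namespace Pool.Agent.U436.CP

open Finset Pool.Agent.U436 Pool.Agent.U436.AS Pool.Agent.U436.CT

variable {k : Type} [Field k] {M : ℕ} {N d : Fin M → ℕ}

section

variable {A : Polynomial k} {f0 : Fin M → Polynomial k} {f : (j : Fin M) → Fin (N j) → Polynomial k}
  {P : (j : Fin M) → Fin (N j) → k} {s : ℕ} {r0 : Fin M → ℕ} {r : (j : Fin M) → Fin (N j) → ℕ}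
  {c : Fin M → k} {κ c0 : k} {lam : BB N → k}
  {Φ : (LL d → k) → JP r0 r s ⊕ JP r0 r s → k} {Ψ : (JP r0 r s ⊕ JP r0 r s → k) → LL d → k}
  {PΦ : JP r0 r s ⊕ JP r0 r s → MvPolynomial (LL d ⊕ BB N) k}
  {PΨ : LL d → MvPolynomial ((JP r0 r s ⊕ JP r0 r s) ⊕ BB N) k}

/-- The coefficients are functions on the target. -/
lemma NF.cfp_eq_pol (h : NF f0 f P c κ lam Φ Ψ PΦ PΨ) (q : LL d) {w : PI d N → k}
    (hw : w ∈ ppow A f0 f P d) :
    cfp (fun l => w (px l)) q =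
      MvPolynomial.eval (pmap PΦ c c0 lam w) (MvPolynomial.rename (Sum.map id Sum.inr) (PΨ q)) := by
  have hne : ∀ b, dtot P b (cfp fun l => w (px l)) ≠ 0 := dtot_ne.mpr fun l i => ne_pole hw l i
  have hne' : ∀ b, dab b (Φ (cfp fun l => w (px l))) ≠ 0 := fun b => h.dab_ne hw b
  have h1 : Ψ (Φ (cfp fun l => w (px l))) q = cfp (fun l => w (px l)) q := by rw [h.ΨΦ _ hne]
  rw [← h1, h.pΨ _ _ hne', MvPolynomial.eval_rename]
  congr 1
  congr 1
  funext t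
  rcases t with t | t
  · exact (h.apply_inl hw t).symm
  · exact (h.apply_iv hw t).symm

theorem NF.isFiniteMap (h : NF f0 f P c κ lam Φ Ψ PΦ PΨ) (hA : IsAdditive A) (hA0 : A ≠ 0)
    (hAc : ∀ j y, A.eval (c j * y) = c j * A.eval y) (hc0 : A.eval c0 = κ) :
    IsFiniteMap (ppow A f0 f P d) (vset A (plp : BB N → JP r0 r s)) (pmap PΦ c c0 lam) := by
  have hx : ∀ l, Itg (ppow A f0 f P d) (pmap PΦ c c0 lam : _ → VI (JP r0 r s) (BB N) → k)
      fun w => w (px l) := by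
    rintro ⟨j, l⟩
    refine Itg.of_root (n := d j) (G := fun i y => MvPolynomial.eval y
      (MvPolynomial.rename (Sum.map id Sum.inr) (PΨ ⟨j, i⟩))) (fun i => ⟨_, fun _ => rfl⟩) fun w hw => ?_
    have h1 : (mpoly (NT.cf fun l => w (px ⟨j, l⟩))).eval (w (px ⟨j, l⟩)) = 0 := by
      rw [eval_mpoly_cf]
      exact Finset.prod_eq_zero (mem_univ l) (sub_self _)
    unfold mpoly at h1
    rw [Polynomial.eval_add, Polynomial.eval_pow, Polynomial.eval_X, Polynomial.eval_finsetSum] at h1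
    simp only [Polynomial.eval_mul, Polynomial.eval_C, Polynomial.eval_pow, Polynomial.eval_X] at h1
    rw [← h1]
    congr 1
    refine Finset.sum_congr rfl fun i _ => ?_
    rw [← h.cfp_eq_pol ⟨j, i⟩ hw]
    rfl
  have hs : ∀ l i, Itg (ppow A f0 f P d) (pmap PΦ c c0 lam : _ → VI (JP r0 r s) (BB N) → k)
      fun w => w (ps l i) := by
    rintro ⟨j, l⟩ i
    have h1 : Itg (ppow A f0 f P d) (pmap PΦ c c0 lam : _ → VI (JP r0 r s) (BB N) → k)
        fun w => invp w ⟨j, i⟩ := by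
      refine Itg.of_pol (G := fun y => lam ⟨j, i⟩ * y (iv ⟨j, i⟩)) ((IsPol.const _).mul (IsPol.coord _))
        fun w _ => ?_
      show invp w ⟨j, i⟩ = lam ⟨j, i⟩ * ((lam ⟨j, i⟩)⁻¹ * invp w ⟨j, i⟩)
      rw [← mul_assoc, mul_inv_cancel₀ (h.lam_ne _), one_mul]
    have h2 := (h1.mul (Itg.prod (Finset.univ.erase l) fun l' _ =>
      (Itg.const (P j i)).sub (hx ⟨j, l'⟩))).neg
    refine h2.congr fun w hw => ?_
    show -(invp w ⟨j, i⟩ * ∏ l' ∈ Finset.univ.erase l, (P j i - w (px ⟨j, l'⟩))) = w (ps ⟨j, l⟩ i)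
    have h3 : invp w ⟨j, i⟩ = -w (ps ⟨j, l⟩ i) * ∏ l' ∈ Finset.univ.erase l, -w (ps ⟨j, l'⟩ i) :=
      (Finset.mul_prod_erase Finset.univ (fun l' => -w (ps ⟨j, l'⟩ i)) (mem_univ l)).symm
    rw [h3, mul_assoc, ← Finset.prod_mul_distrib, Finset.prod_eq_one fun l' _ => ?_]
    · ring
    · have := (hw ⟨j, l'⟩).2 i
      linear_combination this
  have hdeg : A.natDegree ≠ 0 := by
    intro h0
    obtain ⟨a, rfl⟩ := Polynomial.natDegree_eq_zero.mp h0
    have := hA.map_zero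
    rw [Polynomial.eval_C] at this
    exact hA0 (by rw [this, Polynomial.C_0])
  refine ⟨isPolMap_pmap, fun w hw => h.mem hA hAc hc0 hw, ?_⟩
  rintro ((l | l) | ⟨l, i⟩)
  · exact hx l
  · refine Itg.of_eval (F := fun w => w (py l)) hdeg (Itg.congr (F := fun w => (f0 l.1).eval (w (px l)) +
      ∑ i, (f l.1 i).eval (w (ps l i))) (((hx l).eval (f0 l.1)).add (Itg.sum _ fun i _ =>
        (hs l i).eval (f l.1 i))) ?_)
    exact fun w hw => (hw l).1.symm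
  · exact hs l i

end

/-- The finite group of the covering. -/
def Gam (A : Polynomial k) (c : Fin M → k) (d : Fin M → ℕ) : Type :=
  {p : ((j : Fin M) → Equiv.Perm (Fin (d j))) × (LL d → {ζ : k // ζ ∈ zer A}) //
    ∑ l, c l.1 * (p.2 l : k) = 0}

instance (A : Polynomial k) (c : Fin M → k) (d : Fin M → ℕ) : Finite (Gam A c d) := by
  unfold Gam; infer_instance

/-- Sums over the zeros of `A`. -/
lemma sum_scale {V : Type} [AddCommMonoid V] {A : Polynomial k} (hA0 : A ≠ 0) {c : k} (hc : c ≠ 0)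
    (hAc : ∀ y, A.eval (c * y) = c * A.eval y) (g : k → V) :
    ∑ ζ ∈ zer A, g (c * ζ) = ∑ ζ ∈ zer A, g ζ := by
  refine Finset.sum_bij' (fun ζ _ => c * ζ) (fun ζ _ => c⁻¹ * ζ) (fun ζ hζ => ?_) (fun ζ hζ => ?_)
    (fun ζ _ => ?_) (fun ζ _ => ?_) fun ζ _ => rfl
  · rw [mem_zer hA0] at hζ ⊢
    rw [hAc, hζ, mul_zero]
  · rw [mem_zer hA0] at hζ ⊢
    have h1 := hAc (c⁻¹ * ζ)
    rw [← mul_assoc, mul_inv_cancel₀ hc, one_mul, hζ] at h1
    exact (mul_eq_zero.mp h1.symm).resolve_left hc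
  · rw [← mul_assoc, inv_mul_cancel₀ hc, one_mul]
  · rw [← mul_assoc, mul_inv_cancel₀ hc, one_mul]

/-- **The Weil classes on `∏ C j ^ d j` are algebraic.** -/
theorem weil_algebraic [IsAlgClosed k] {K : Type} [Field K] [CharZero K] {T : Theory k K}
    (hT : T.Laws) {A : Polynomial k} (hA : IsAdditive A) (hA0 : A ≠ 0) {s : ℕ}
    {r0 ε0 : Fin M → ℕ} {r ε : (j : Fin M) → Fin (N j) → ℕ}
    (hε0 : ∀ j, ε0 j ≤ 1) (hε : ∀ j i, ε j i ≤ 1)
    (hs : ∑ j, (ε0 j + ∑ i, ε j i) = 2 * s) {f0 : Fin M → Polynomial k}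
    {f : (j : Fin M) → Fin (N j) → Polynomial k}
    (hf0 : ∀ j, (f0 j).natDegree = r0 j + ε0 j + r0 j + 1)
    (hm0 : ∀ j, ((r0 j + ε0 j + r0 j + 1 : ℕ) : k) ≠ 0)
    (hf : ∀ j i, (f j i).natDegree = r j i + ε j i + r j i + 1)
    (hm : ∀ j i, ((r j i + ε j i + r j i + 1 : ℕ) : k) ≠ 0)
    {P : (j : Fin M) → Fin (N j) → k} (hP : ∀ j, Function.Injective (P j)) {c : Fin M → k}
    (hc : ∀ j, c j ≠ 0) (hAc : ∀ j y, A.eval (c j * y) = c j * A.eval y)
    (hd : ∀ j, d j = dd (r0 j) (ε0 j) (r j) (ε j) 0) (l0 : LL d) (x : T.H (ppow A f0 f P d))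
    (h1 : ∀ (σ : (j : Fin M) → Equiv.Perm (Fin (d j))) (α : LL d → k), (∀ l, A.eval (α l) = 0) →
      ∑ l, c l.1 * α l = 0 → T.act _ (prho σ α) x = x)
    (h2 : ∑ ζ ∈ zer A, T.act _ (prho (fun _ => 1) (Pi.single l0 ζ)) x = 0) :
    x ∈ T.alg (ppow A f0 f P d) := by
  obtain ⟨κ, lam, Φ, hlam, hΦ, hD, hform⟩ := exists_psplit (s := s) hε0 hε hs hf0 hm0 hf hm hP hc hd
  obtain ⟨c0, hc0⟩ := hA.surj hA0 κ
  obtain ⟨hΦr, hΦD, Ψ, hΨr, hΨD, hΨΦ, hΦΨ⟩ := hΦ
  choose PΦ hPΦ using hΦr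
  choose PΨ hPΨ using hΨr
  have h : NF f0 f P c κ lam Φ Ψ PΦ PΨ := ⟨hlam, hD, hPΦ, hPΨ, hΨD, hΨΦ, hΦΨ, hform⟩
  let X : Set (PI d N → k) := ppow A f0 f P d
  let Y : Set (VI (JP r0 r s) (BB N) → k) := vset A (plp : BB N → JP r0 r s)
  let π : (PI d N → k) → VI (JP r0 r s) (BB N) → k := pmap PΦ c c0 lam
  have hXz : IsZeroSet X := isZeroSet_ppow A f0 f P _
  have hYz : IsZeroSet Y := isZeroSet_vset A _
  have hfin : IsFiniteMap X Y π := h.isFiniteMap hA hA0 hAc hc0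
  have hsurj : ∀ y ∈ Y, ∃ w ∈ X, π w = y := fun y hy => h.surj hA hA0 hAc hc hc0 l0 hy
  have hfib : ∀ w ∈ X, ∀ w' ∈ X, π w = π w' ↔
      ∃ γ : Gam A c d, w' = prho γ.1.1 (fun l => (γ.1.2 l : k)) w := by
    intro w hw w' hw'
    constructor
    · intro he
      obtain ⟨σ, α, hα, hα0, e⟩ := h.fibres_mp hA hw hw' he
      exact ⟨⟨(σ, fun l => ⟨α l, (mem_zer hA0).mpr (hα l)⟩), hα0⟩, e⟩
    · rintro ⟨γ, e⟩
      exact h.fibres_mpr hw hw' γ.2 e
  refine hT.quotient X Y π (Gam A c d) (fun γ => prho γ.1.1 fun l => (γ.1.2 l : k)) inferInstance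
    hXz hYz hfin hsurj (fun γ => isAut_prho hA _ fun l => (mem_zer hA0).mp (γ.1.2 l).2) hfib x
    (fun γ => h1 _ _ (fun l => (mem_zer hA0).mp (γ.1.2 l).2) γ.2) ?_
  -- the direct image has norm zero
  refine good_vset hT hA hA0 plp _ ?_
  rw [nrm_apply]
  have h3 : ∀ ζ ∈ zer A, T.act Y (tau (c l0.1 * ζ)) (T.push X Y π x) =
      T.push X Y π (T.act X (prho (fun _ => 1) (Pi.single l0 ζ)) x) := by
    intro ζ hζ
    have hζ' := (mem_zer hA0).mp hζ
    have hcζ : A.eval (c l0.1 * ζ) = 0 := by rw [hAc, hζ', mul_zero]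
    have hα : ∀ l, A.eval ((Pi.single l0 ζ : LL d → k) l) = 0 := by
      intro l
      by_cases hl : l = l0
      · subst hl
        rw [Pi.single_eq_same, hζ']
      · rw [Pi.single_eq_of_ne hl, hA.map_zero]
    refine (hT.push_act X Y π (prho (fun _ => 1) (Pi.single l0 ζ)) (tau (c l0.1 * ζ)) hXz hYz hfin
      (isAut_prho hA _ hα) (isAut_tau (l := []) hA hcζ) (fun w _ => ?_) x).symm
    funext q
    rcases q with q | (q | b)
    · have h5 : tau (c l0.1 * ζ) (π w) (Sum.inl q) = π w (Sum.inl q) := Function.update_of_ne (by rintro ⟨⟩) _ _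
      rw [h5]
      rfl
    · have h5 : tau (c l0.1 * ζ) (π w) iz = π w iz + c l0.1 * ζ := tau_iz _ _
      show ∑ l : LL d, c l.1 * (w (py l) + (Pi.single l0 ζ : LL d → k) l) - c0 =
        tau (c l0.1 * ζ) (π w) iz
      rw [h5]
      have h6 : ∀ l ∈ (univ : Finset (LL d)), c l.1 * (w (py l) + (Pi.single l0 ζ : LL d → k) l) =
          c l.1 * w (py l) + if l = l0 then c l0.1 * ζ else 0 := by
        intro l _
        by_cases hl : l = l0
        · subst hl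
          rw [Pi.single_eq_same, if_pos rfl, mul_add]
        · rw [Pi.single_eq_of_ne hl, if_neg hl, add_zero, add_zero]
      rw [Finset.sum_congr rfl h6, Finset.sum_add_distrib, Finset.sum_ite_eq' univ l0, if_pos (mem_univ _)]
      show _ = ∑ l : LL d, c l.1 * w (py l) - c0 + c l0.1 * ζ
      ring
    · show (lam b)⁻¹ * invp w b = tau (c l0.1 * ζ) (π w) (iv b)
      rw [tau_iv]
      rfl
  rw [← sum_scale hA0 (hc l0.1) (hAc l0.1) fun ζ => T.act Y (tau ζ) (T.push X Y π x),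
    Finset.sum_congr rfl h3, ← map_sum, h2, map_zero]

end Pool.Agent.U436.CP
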