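import Pool.Agent.U436.CP.PSplit

/-!
# The normal form for several rational functions: existence
-/

set_option autoImplicit false

namespace Pool.Agent.U436.CP

open Finset Pool.Agent.U436 Pool.Agent.U436.AS

variable {k : Type} [Field k] {M s : ℕ} {N : Fin M → ℕ} {r0 ε0 : Fin M → ℕ} {r ε : (j : Fin M) → Fin (N j) → ℕ}
  {d : Fin M → ℕ}

/-- All coefficients. -/
abbrev LL (d : Fin M → ℕ) : Type := Σ j : Fin M, Fin (d j)

/-- The values at the poles. -/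
noncomputable def dtot (P : (j : Fin M) → Fin (N j) → k) (b : BB N) (a : LL d → k) : k :=
  dpt (P b.1) b.2 fun l => a ⟨b.1, l⟩

/-- The `1 - b` of the last planes. -/
def dab (b : BB N) (x : JP r0 r s ⊕ JP r0 r s → k) : k := 1 - x (Sum.inr (plp b))

/-- The coefficients of all polynomials `∏ (X - t l)`. -/
noncomputable def cfp (t : LL d → k) : LL d → k := fun l => NT.cf (fun i => t ⟨l.1, i⟩) l.2

lemma IsReg.pull {σ τ ι ι' : Type} {D : ι → (σ → k) → k} {D' : ι' → (τ → k) → k} {F : (σ → k) → k}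
    (hF : IsReg D F) (u : σ → τ) (g : ι → ι') (hD : ∀ i x, D' (g i) x = D i (x ∘ u)) :
    IsReg D' fun x => F (x ∘ u) := by
  obtain ⟨P, hP⟩ := hF
  refine ⟨MvPolynomial.rename (Sum.map u g) P, fun x hx => ?_⟩
  show F (x ∘ u) = _
  rw [MvPolynomial.eval_rename, hP (x ∘ u) fun i => by rw [← hD]; exact hx _]
  congr 1
  congr 1
  funext q
  rcases q with q | i
  · rfl
  · show (D i (x ∘ u))⁻¹ = (D' (g i) x)⁻¹
    rw [hD]

lemma IsReg.mono {τ ι ι' : Type} {D : ι → (τ → k) → k} {D' : ι' → (τ → k) → k} {F : (τ → k) → k}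
    (hF : IsReg D F) (g : ι → ι') (hD : ∀ i x, D' (g i) x = D i x) : IsReg D' F :=
  IsReg.pull hF id g hD

theorem exists_psplit [IsAlgClosed k] (hε0 : ∀ j, ε0 j ≤ 1) (hε : ∀ j i, ε j i ≤ 1)
    (hs : ∑ j, (ε0 j + ∑ i, ε j i) = 2 * s) {f0 : Fin M → Polynomial k}
    {f : (j : Fin M) → Fin (N j) → Polynomial k}
    (hf0 : ∀ j, (f0 j).natDegree = r0 j + ε0 j + r0 j + 1)
    (hm0 : ∀ j, ((r0 j + ε0 j + r0 j + 1 : ℕ) : k) ≠ 0)
    (hf : ∀ j i, (f j i).natDegree = r j i + ε j i + r j i + 1)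
    (hm : ∀ j i, ((r j i + ε j i + r j i + 1 : ℕ) : k) ≠ 0)
    {P : (j : Fin M) → Fin (N j) → k} (hP : ∀ j, Function.Injective (P j)) {c : Fin M → k}
    (hc : ∀ j, c j ≠ 0) (hd : ∀ j, d j = dd (r0 j) (ε0 j) (r j) (ε j) 0) :
    ∃ (κ : k) (lam : BB N → k) (Φ : (LL d → k) → JP r0 r s ⊕ JP r0 r s → k),
      (∀ b, lam b ≠ 0) ∧ IsRegEquiv (dtot P) dab Φ ∧ (∀ a b, dab b (Φ a) = lam b * dtot P b a) ∧
      ∀ t : LL d → k, (∀ l i, t l ≠ P l.1 i) →
        ∑ l, c l.1 * ((f0 l.1).eval (t l) + ∑ i, (f l.1 i).eval ((t l - P l.1 i)⁻¹)) =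
          κ + ∑ q, Φ (cfp t) (Sum.inl q) * Φ (cfp t) (Sum.inr q) := by
  have hd' : d = fun j => dd (r0 j) (ε0 j) (r j) (ε j) 0 := funext hd
  subst hd'
  have hP' : ∀ j, Function.Injective (Sum.elim (P j) (Fin.elim0 : Fin 0 → k)) := by
    rintro j (i | i) (i' | i') h
    · rw [hP j h]
    · exact i'.elim0
    · exact i.elim0
    · exact i'.elim0
  choose κ lamA Φ h1 h2 h3 h4 using fun j => exists_normal (M := 0) (hε0 j) (hε j) (hf0 j) (hm0 j) (hf j) (hm j)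
    (hP' j)
  choose hr hD Ψ hΨr hΨD hΨΦ hΦΨ using h2
  obtain ⟨ii, hii⟩ := IsAlgClosed.exists_pow_nat_eq (-1 : k) (n := 2) (by norm_num)
  choose β hβ using fun j => IsAlgClosed.exists_pow_nat_eq (c j) (n := 2) (by norm_num)
  have hβ0 : ∀ j, β j ≠ 0 := by
    intro j h
    exact hc j (by rw [← hβ j, h]; ring)
  have hcard : Fintype.card (WP ε0 ε) = Fintype.card (Fin s ⊕ Fin s) := by
    rw [Fintype.card_sum, Fintype.card_sigma]
    have : ∀ j : Fin M, Fintype.card (WW (ε0 j) (ε j)) = ε0 j + ∑ i, ε j i := by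
      intro j
      rw [Fintype.card_sum, Fintype.card_sigma]
      simp only [Fintype.card_fin]
    rw [Finset.sum_congr rfl fun j _ => this j, hs]
    simp only [Fintype.card_fin]
    omega
  let e : WP ε0 ε ≃ Fin s ⊕ Fin s := Fintype.equivOfCardEq hcard
  have htwo : WP ε0 ε → (2 : k) ≠ 0 := by
    rintro ⟨j, (t | ⟨i, t⟩)⟩ h
    · have h0 : ε0 j = 1 := by have := t.pos; have := hε0 j; omega
      refine hm0 j ?_
      rw [h0, show r0 j + 1 + r0 j + 1 = 2 * (r0 j + 1) by ring, Nat.cast_mul, Nat.cast_two, h, zero_mul]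
    · have h0 : ε j i = 1 := by have := t.pos; have := hε j i; omega
      refine hm j i ?_
      rw [h0, show r j i + 1 + r j i + 1 = 2 * (r j i + 1) by ring, Nat.cast_mul, Nat.cast_two, h, zero_mul]
  have hUT := uab_tab (r0 := r0) (r := r) (e := e) hc hβ0 hii htwo
  have hTU := tab_uab (r0 := r0) (r := r) (e := e) hc hβ0 hii htwo
  have hda : ∀ (b : BB N) (x : JP r0 r s ⊕ JP r0 r s → k),
      cu (Sum.inl b.2) (prt (uab (r0 := r0) (r := r) c β e ii x) b.1) = dab b x := fun b x => rfl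
  have hdt : ∀ (b : BB N) (y : SI r0 ε0 r ε → k), dab b (tab c β e ii y) = cu (Sum.inl b.2) (prt y b.1) := by
    intro b y
    rw [← hda, hUT]
  have hxne : ∀ {x : JP r0 r s ⊕ JP r0 r s → k}, (∀ b, dab b x ≠ 0) →
      ∀ j i, cu i (prt (uab (r0 := r0) (r := r) (ε0 := ε0) (ε := ε) c β e ii x) j) ≠ 0 := by
    rintro x hx j (i | i)
    · exact hx ⟨j, i⟩
    · exact i.elim0
  have hane : ∀ {a : LL (fun j => dd (r0 j) (ε0 j) (r j) (ε j) 0) → k}, (∀ b, dtot P b a ≠ 0) →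
      ∀ j i, dval (Sum.elim (P j) (Fin.elim0 : Fin 0 → k)) i (fun l => a ⟨j, l⟩) ≠ 0 := by
    rintro a ha j (i | i)
    · exact ha ⟨j, i⟩
    · exact i.elim0
  refine ⟨∑ j, c j * κ j, fun b => lamA b.1 (Sum.inl b.2),
    fun a => tab c β e ii (fun q => Φ q.1 (fun l => a ⟨q.1, l⟩) q.2), fun b => h1 _ _,
    ⟨fun q => ?_, fun a ha b => ?_,
      fun x l => Ψ l.1 (prt (uab (r0 := r0) (r := r) c β e ii x) l.1) l.2, fun l => ?_, fun x hx b => ?_,
      fun a ha => ?_, fun x hx => ?_⟩, fun a b => ?_, fun t ht => ?_⟩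
  · refine IsReg.comp_pol (isPol_tab q) fun p => ?_
    exact IsReg.pull (D' := dtot P) ((hr p.1 p.2).reindex)
      (fun l => (⟨p.1, l⟩ : LL fun j => dd (r0 j) (ε0 j) (r j) (ε j) 0)) (fun i => (⟨p.1, i⟩ : BB N)) fun _ _ => rfl
  · rw [hdt]
    exact hD b.1 _ (hane ha b.1) (Sum.inl b.2)
  · have h5 := IsReg.comp_reg (hΨr l.1 l.2) (Θ := fun x => prt (uab (r0 := r0) (r := r) c β e ii x) l.1)
      (fun t => isPol_uab ⟨l.1, t⟩)
    exact IsReg.mono h5.reindex (fun i => (⟨l.1, i⟩ : BB N)) fun i x => rfl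
  · exact hΨD b.1 _ (hxne hx b.1) (Sum.inl b.2)
  · funext l
    show Ψ l.1 (prt (uab c β e ii (tab c β e ii _)) l.1) l.2 = a l
    rw [hUT]
    show Ψ l.1 (Φ l.1 fun i => a ⟨l.1, i⟩) l.2 = a l
    rw [hΨΦ l.1 _ (hane ha l.1)]
  · show tab c β e ii (fun q => Φ q.1 (fun l => Ψ q.1 (prt (uab c β e ii x) q.1) l) q.2) = x
    have h6 : (fun q : SI r0 ε0 r ε => Φ q.1 (fun l => Ψ q.1 (prt (uab c β e ii x) q.1) l) q.2) =
        uab c β e ii x := by
      funext q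
      show Φ q.1 (Ψ q.1 (prt (uab c β e ii x) q.1)) q.2 = _
      rw [hΦΨ q.1 _ (hxne hx q.1)]
      rfl
    rw [h6, hTU]
  · rw [hdt]
    exact h3 b.1 _ (Sum.inl b.2)
  · have h5 : ∀ j, ∑ l, ((f0 j).eval (t ⟨j, l⟩) + ∑ i, (f j i).eval ((t ⟨j, l⟩ - P j i)⁻¹)) =
        κ j + gform (Φ j (NT.cf fun l => t ⟨j, l⟩)) := fun j => h4 j (fun l => t ⟨j, l⟩) (by
      rintro l (i | i)
      · exact ht ⟨j, l⟩ i
      · exact i.elim0)
    rw [Fintype.sum_sigma]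
    have h6 : ∀ j, ∑ l, c j * ((f0 j).eval (t ⟨j, l⟩) + ∑ i, (f j i).eval ((t ⟨j, l⟩ - P j i)⁻¹)) =
        c j * κ j + c j * gform (Φ j (NT.cf fun l => t ⟨j, l⟩)) := by
      intro j
      rw [← Finset.mul_sum, h5, mul_add]
    show ∑ j, ∑ l, c j * ((f0 j).eval (t ⟨j, l⟩) + ∑ i, (f j i).eval ((t ⟨j, l⟩ - P j i)⁻¹)) = _
    rw [Finset.sum_congr rfl fun j _ => h6 j, Finset.sum_add_distrib]
    congr 1
    exact sum_planes (e := e) hβ hii (fun q => Φ q.1 (NT.cf fun l => t ⟨q.1, l⟩) q.2)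

end Pool.Agent.U436.CP
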