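import Pool.Agent.U436.AS.Split

/-!
# The normal form for several rational functions
-/

set_option autoImplicit false

namespace Pool.Agent.U436.CP

open Finset Pool.Agent.U436 Pool.Agent.U436.AS

variable {k : Type} [Field k]

section one

variable {N r0 ε0 : ℕ} {r ε : Fin N → ℕ}

/-- The planes of one function. -/
abbrev K0 (r0 : ℕ) (r : Fin N → ℕ) : Type := Fin r0 ⊕ ((Σ i : Fin N, Fin (r i)) ⊕ Fin N)

/-- The first coordinates of the planes. -/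
def pa (y : TT r0 ε0 r ε 0 → k) : K0 r0 r → k
  | Sum.inl t => y (Sum.inl (Sum.inl t))
  | Sum.inr (Sum.inl ⟨i, t⟩) => y (Sum.inr (Sum.inl ⟨i, Sum.inl t⟩))
  | Sum.inr (Sum.inr i) => ct y i

/-- The second coordinates of the planes. -/
def pb (y : TT r0 ε0 r ε 0 → k) : K0 r0 r → k
  | Sum.inl t => y (Sum.inl (Sum.inr (Sum.inl t)))
  | Sum.inr (Sum.inl ⟨i, t⟩) => y (Sum.inr (Sum.inl ⟨i, Sum.inr (Sum.inl t)⟩))
  | Sum.inr (Sum.inr i) => 1 - cu (Sum.inl i) y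

/-- The inverse. -/
def unp (α β : K0 r0 r → k) (γ : WW ε0 ε → k) : TT r0 ε0 r ε 0 → k
  | Sum.inl (Sum.inl t) => α (Sum.inl t)
  | Sum.inl (Sum.inr (Sum.inl t)) => β (Sum.inl t)
  | Sum.inl (Sum.inr (Sum.inr t)) => γ (Sum.inl t)
  | Sum.inr (Sum.inl ⟨i, Sum.inl t⟩) => α (Sum.inr (Sum.inl ⟨i, t⟩))
  | Sum.inr (Sum.inl ⟨i, Sum.inr (Sum.inl t)⟩) => β (Sum.inr (Sum.inl ⟨i, t⟩))
  | Sum.inr (Sum.inl ⟨i, Sum.inr (Sum.inr t)⟩) => γ (Sum.inr ⟨i, t⟩)
  | Sum.inr (Sum.inr (Sum.inl i)) => α (Sum.inr (Sum.inr i))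
  | Sum.inr (Sum.inr (Sum.inr (Sum.inl i))) => 1 - β (Sum.inr (Sum.inr i))

lemma unp_pa (y : TT r0 ε0 r ε 0 → k) : unp (pa y) (pb y) (wv y) = y := by
  funext q
  rcases q with (j | j | j) | ⟨i, (j | j | j)⟩ | i | (i | j)
  · rfl
  · rfl
  · rfl
  · rfl
  · rfl
  · rfl
  · rfl
  · show 1 - (1 - cu (Sum.inl i) y) = _
    rw [sub_sub_cancel]
    rfl
  · exact j.elim0

lemma pa_unp (α β : K0 r0 r → k) (γ : WW ε0 ε → k) : pa (unp α β γ) = α := by
  funext q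
  rcases q with t | ⟨i, t⟩ | i <;> rfl

lemma pb_unp (α β : K0 r0 r → k) (γ : WW ε0 ε → k) : pb (unp α β γ) = β := by
  funext q
  rcases q with t | ⟨i, t⟩ | i
  · rfl
  · rfl
  · show 1 - (1 - β (Sum.inr (Sum.inr i))) = _
    rw [sub_sub_cancel]

lemma wv_unp (α β : K0 r0 r → k) (γ : WW ε0 ε → k) : wv (unp α β γ) = γ := by
  funext q
  rcases q with t | ⟨i, t⟩ <;> rfl

lemma isPol_pa (q : K0 r0 r) : IsPol fun y : TT r0 ε0 r ε 0 → k => pa y q := by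
  rcases q with t | ⟨i, t⟩ | i
  · exact IsPol.coord _
  · exact IsPol.coord _
  · exact IsPol.coord _

lemma isPol_pb (q : K0 r0 r) : IsPol fun y : TT r0 ε0 r ε 0 → k => pb y q := by
  rcases q with t | ⟨i, t⟩ | i
  · exact IsPol.coord _
  · exact IsPol.coord _
  · exact (IsPol.const _).sub (IsPol.coord _)

lemma isPol_unp {σ : Type} {α β : (σ → k) → K0 r0 r → k} {γ : (σ → k) → WW ε0 ε → k}
    (hα : ∀ q, IsPol fun x => α x q) (hβ : ∀ q, IsPol fun x => β x q) (hγ : ∀ q, IsPol fun x => γ x q)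
    (q : TT r0 ε0 r ε 0) : IsPol fun x => unp (α x) (β x) (γ x) q := by
  rcases q with (j | j | j) | ⟨i, (j | j | j)⟩ | i | (i | j)
  · exact hα _
  · exact hβ _
  · exact hγ _
  · exact hα _
  · exact hβ _
  · exact hγ _
  · exact hα _
  · exact (IsPol.const _).sub (hβ _)
  · exact j.elim0

lemma gform_planes (y : TT r0 ε0 r ε 0 → k) :
    gform y = ∑ q, pa y q * pb y q + ∑ w, wv y w ^ 2 := by
  have h2 : ∑ w : WW ε0 ε, wv y w ^ 2 = ∑ j : Fin ε0, y (Sum.inl (Sum.inr (Sum.inr j))) ^ 2 +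
      ∑ i : Fin N, ∑ j : Fin (ε i), y (Sum.inr (Sum.inl ⟨i, Sum.inr (Sum.inr j)⟩)) ^ 2 := by
    rw [Fintype.sum_sum_type, Fintype.sum_sigma]
    rfl
  have h3 : ∑ q : K0 r0 r, pa y q * pb y q =
      ∑ j : Fin r0, y (Sum.inl (Sum.inl j)) * y (Sum.inl (Sum.inr (Sum.inl j))) +
      (∑ i : Fin N, ∑ j : Fin (r i), y (Sum.inr (Sum.inl ⟨i, Sum.inl j⟩)) *
        y (Sum.inr (Sum.inl ⟨i, Sum.inr (Sum.inl j)⟩)) +
      ∑ i : Fin N, ct y i * (1 - cu (Sum.inl i) y)) := by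
    rw [Fintype.sum_sum_type, Fintype.sum_sum_type, Fintype.sum_sigma]
    rfl
  rw [h3, h2]
  unfold gform quad
  simp only [Finset.univ_eq_empty, Finset.sum_empty, add_zero, Finset.sum_add_distrib]
  show _ = _
  unfold cx
  ring

end one

variable {M s : ℕ} {N : Fin M → ℕ} {r0 ε0 : Fin M → ℕ} {r ε : (j : Fin M) → Fin (N j) → ℕ}

/-- The poles of all functions. -/
abbrev BB (N : Fin M → ℕ) : Type := Σ j : Fin M, Fin (N j)

/-- The coordinates of all normal forms. -/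
abbrev SI (r0 ε0 : Fin M → ℕ) (r ε : (j : Fin M) → Fin (N j) → ℕ) : Type :=
  Σ j : Fin M, TT (r0 j) (ε0 j) (r j) (ε j) 0

/-- The indices of the planes. -/
abbrev JP (r0 : Fin M → ℕ) (r : (j : Fin M) → Fin (N j) → ℕ) (s : ℕ) : Type :=
  (Σ j : Fin M, K0 (r0 j) (r j)) ⊕ Fin s

/-- The indices of the squares. -/
abbrev WP (ε0 : Fin M → ℕ) (ε : (j : Fin M) → Fin (N j) → ℕ) : Type := Σ j : Fin M, WW (ε0 j) (ε j)

/-- The index of the last plane of a pole. -/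
def plp (b : BB N) : JP r0 r s := Sum.inl ⟨b.1, Sum.inr (Sum.inr b.2)⟩

/-- The part with the index `j`. -/
def prt (y : SI r0 ε0 r ε → k) (j : Fin M) : TT (r0 j) (ε0 j) (r j) (ε j) 0 → k := fun t => y ⟨j, t⟩

/-- The scaled square coordinates. -/
def wvp (β : Fin M → k) (y : SI r0 ε0 r ε → k) (w : WP ε0 ε) : k := β w.1 * wv (prt y w.1) w.2

/-- The coordinates `(a, b)`. -/
def tab (c β : Fin M → k) (e : WP ε0 ε ≃ Fin s ⊕ Fin s) (ii : k) (y : SI r0 ε0 r ε → k) :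
    JP r0 r s ⊕ JP r0 r s → k
  | Sum.inl (Sum.inl q) => c q.1 * pa (prt y q.1) q.2
  | Sum.inl (Sum.inr t) => wvp β y (e.symm (Sum.inl t)) + ii * wvp β y (e.symm (Sum.inr t))
  | Sum.inr (Sum.inl q) => pb (prt y q.1) q.2
  | Sum.inr (Sum.inr t) => wvp β y (e.symm (Sum.inl t)) - ii * wvp β y (e.symm (Sum.inr t))

/-- The square coordinates from the planes. -/
def sqp (β : Fin M → k) (e : WP ε0 ε ≃ Fin s ⊕ Fin s) (ii : k) (x : JP r0 r s ⊕ JP r0 r s → k) (w : WP ε0 ε) : k :=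
  (β w.1)⁻¹ * Sum.elim (fun t => (2 : k)⁻¹ * (x (Sum.inl (Sum.inr t)) + x (Sum.inr (Sum.inr t))))
    (fun t => (2 * ii)⁻¹ * (x (Sum.inl (Sum.inr t)) - x (Sum.inr (Sum.inr t)))) (e w)

/-- The inverse. -/
def uab (c β : Fin M → k) (e : WP ε0 ε ≃ Fin s ⊕ Fin s) (ii : k) (x : JP r0 r s ⊕ JP r0 r s → k) :
    SI r0 ε0 r ε → k := fun q =>
  unp (fun t => (c q.1)⁻¹ * x (Sum.inl (Sum.inl ⟨q.1, t⟩))) (fun t => x (Sum.inr (Sum.inl ⟨q.1, t⟩)))
    (fun w => sqp β e ii x ⟨q.1, w⟩) q.2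

lemma prt_uab (c β : Fin M → k) (e : WP ε0 ε ≃ Fin s ⊕ Fin s) (ii : k) (x : JP r0 r s ⊕ JP r0 r s → k)
    (j : Fin M) : prt (uab (r0 := r0) (r := r) c β e ii x) j =
      unp (fun t => (c j)⁻¹ * x (Sum.inl (Sum.inl ⟨j, t⟩))) (fun t => x (Sum.inr (Sum.inl ⟨j, t⟩)))
        (fun w => sqp β e ii x ⟨j, w⟩) := rfl

section laws

variable {c β : Fin M → k} {e : WP ε0 ε ≃ Fin s ⊕ Fin s} {ii : k}

lemma ii_ne (hii : ii ^ 2 = -1) : ii ≠ 0 := by
  rintro rfl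
  have : (0 : k) = -1 := by rw [← hii]; norm_num
  exact one_ne_zero (neg_eq_zero.mp this.symm)

lemma uab_tab (hc : ∀ j, c j ≠ 0) (hβ : ∀ j, β j ≠ 0) (hii : ii ^ 2 = -1) (h2 : WP ε0 ε → (2 : k) ≠ 0)
    (y : SI r0 ε0 r ε → k) : uab c β e ii (tab c β e ii y) = y := by
  have hii0 := ii_ne hii
  have h3 : ∀ w : WP ε0 ε, sqp β e ii (tab (r0 := r0) (r := r) c β e ii y) w = wv (prt y w.1) w.2 := by
    intro w
    have h2' := h2 w
    have hb := hβ w.1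
    have h4 : β w.1 * wv (prt y w.1) w.2 = wvp β y w := rfl
    unfold sqp
    rw [inv_mul_eq_iff_eq_mul₀ hb, h4]
    obtain ⟨v, rfl⟩ := e.symm.surjective w
    rw [e.apply_symm_apply]
    rcases v with t | t
    · show (2 : k)⁻¹ * ((wvp β y (e.symm (Sum.inl t)) + ii * wvp β y (e.symm (Sum.inr t))) +
        (wvp β y (e.symm (Sum.inl t)) - ii * wvp β y (e.symm (Sum.inr t)))) = _
      field_simp
      ring
    · show (2 * ii)⁻¹ * ((wvp β y (e.symm (Sum.inl t)) + ii * wvp β y (e.symm (Sum.inr t))) -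
        (wvp β y (e.symm (Sum.inl t)) - ii * wvp β y (e.symm (Sum.inr t)))) = _
      field_simp
      ring
  funext q
  obtain ⟨j, q⟩ := q
  show unp _ _ _ q = prt y j q
  rw [← congrFun (unp_pa (prt y j)) q]
  have h5 : (fun t => (c j)⁻¹ * tab (r0 := r0) (r := r) c β e ii y (Sum.inl (Sum.inl ⟨j, t⟩))) =
      pa (prt y j) := by
    funext t
    show (c j)⁻¹ * (c j * pa (prt y j) t) = _
    rw [← mul_assoc, inv_mul_cancel₀ (hc j), one_mul]
  have h6 : (fun w => sqp β e ii (tab (r0 := r0) (r := r) c β e ii y) ⟨j, w⟩) = wv (prt y j) := by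
    funext w; exact h3 ⟨j, w⟩
  rw [h5, h6]
  rfl

lemma tab_uab (hc : ∀ j, c j ≠ 0) (hβ : ∀ j, β j ≠ 0) (hii : ii ^ 2 = -1) (h2 : WP ε0 ε → (2 : k) ≠ 0)
    (x : JP r0 r s ⊕ JP r0 r s → k) : tab c β e ii (uab (r0 := r0) (r := r) c β e ii x) = x := by
  have hii0 := ii_ne hii
  have hw : ∀ w : WP ε0 ε, wvp β (uab (r0 := r0) (r := r) c β e ii x) w =
      Sum.elim (fun t => (2 : k)⁻¹ * (x (Sum.inl (Sum.inr t)) + x (Sum.inr (Sum.inr t))))
    (fun t => (2 * ii)⁻¹ * (x (Sum.inl (Sum.inr t)) - x (Sum.inr (Sum.inr t)))) (e w) := by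
    intro w
    unfold wvp
    rw [prt_uab, wv_unp]
    show β w.1 * ((β w.1)⁻¹ * _) = _
    rw [← mul_assoc, mul_inv_cancel₀ (hβ w.1), one_mul]
  funext q
  rcases q with (q | t) | (q | t)
  · show c q.1 * pa (prt (uab c β e ii x) q.1) q.2 = _
    rw [prt_uab, pa_unp, ← mul_assoc, mul_inv_cancel₀ (hc q.1), one_mul]
  · have h2' := h2 (e.symm (Sum.inl t))
    show wvp β (uab c β e ii x) (e.symm (Sum.inl t)) + ii * wvp β (uab c β e ii x) (e.symm (Sum.inr t)) = _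
    rw [hw, hw, e.apply_symm_apply, e.apply_symm_apply, Sum.elim_inl, Sum.elim_inr]
    field_simp
    ring
  · show pb (prt (uab c β e ii x) q.1) q.2 = _
    rw [prt_uab, pb_unp]
  · have h2' := h2 (e.symm (Sum.inl t))
    show wvp β (uab c β e ii x) (e.symm (Sum.inl t)) - ii * wvp β (uab c β e ii x) (e.symm (Sum.inr t)) = _
    rw [hw, hw, e.apply_symm_apply, e.apply_symm_apply, Sum.elim_inl, Sum.elim_inr]
    field_simp
    ring

lemma sum_planes (hβ : ∀ j, β j ^ 2 = c j) (hii : ii ^ 2 = -1) (y : SI r0 ε0 r ε → k) :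
    ∑ j, c j * gform (prt y j) =
      ∑ q : JP r0 r s, tab c β e ii y (Sum.inl q) * tab c β e ii y (Sum.inr q) := by
  have h1 : ∑ t : Fin s, (wvp β y (e.symm (Sum.inl t)) + ii * wvp β y (e.symm (Sum.inr t))) *
      (wvp β y (e.symm (Sum.inl t)) - ii * wvp β y (e.symm (Sum.inr t))) = ∑ w : WP ε0 ε, wvp β y w ^ 2 := by
    rw [← Equiv.sum_comp e.symm (fun w => wvp β y w ^ 2), Fintype.sum_sum_type, ← Finset.sum_add_distrib]
    refine Finset.sum_congr rfl fun t _ => ?_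
    linear_combination (-(wvp β y (e.symm (Sum.inr t)) ^ 2)) * hii
  rw [Fintype.sum_sum_type]
  show _ = ∑ q : (Σ j : Fin M, K0 (r0 j) (r j)), (c q.1 * pa (prt y q.1) q.2) * pb (prt y q.1) q.2 +
    ∑ t : Fin s, (wvp β y (e.symm (Sum.inl t)) + ii * wvp β y (e.symm (Sum.inr t))) *
      (wvp β y (e.symm (Sum.inl t)) - ii * wvp β y (e.symm (Sum.inr t)))
  rw [h1, Fintype.sum_sigma, Fintype.sum_sigma, ← Finset.sum_add_distrib]
  refine Finset.sum_congr rfl fun j _ => ?_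
  rw [gform_planes, mul_add, Finset.mul_sum, Finset.mul_sum]
  congr 1
  · exact Finset.sum_congr rfl fun q _ => by ring
  · refine Finset.sum_congr rfl fun w _ => ?_
    show _ = (β j * wv (prt y j) w) ^ 2
    rw [mul_pow, hβ]

lemma isPol_prt (F : (j : Fin M) → (TT (r0 j) (ε0 j) (r j) (ε j) 0 → k) → k) (hF : ∀ j, IsPol (F j))
    (j : Fin M) : IsPol fun y : SI r0 ε0 r ε → k => F j (prt y j) :=
  (hF j).comp fun t => IsPol.coord _

lemma isPol_wvp (w : WP ε0 ε) : IsPol fun y : SI r0 ε0 r ε → k => wvp β y w :=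
  (IsPol.const _).mul ((isPol_wv w.2).comp fun t => IsPol.coord _)

lemma isPol_tab (q : JP r0 r s ⊕ JP r0 r s) : IsPol fun y : SI r0 ε0 r ε → k => tab c β e ii y q := by
  rcases q with (q | t) | (q | t)
  · exact (IsPol.const _).mul ((isPol_pa q.2).comp fun t => IsPol.coord _)
  · exact (isPol_wvp _).add ((IsPol.const _).mul (isPol_wvp _))
  · exact (isPol_pb q.2).comp fun t => IsPol.coord _
  · exact (isPol_wvp _).sub ((IsPol.const _).mul (isPol_wvp _))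

lemma isPol_sqp (w : WP ε0 ε) : IsPol fun x : JP r0 r s ⊕ JP r0 r s → k => sqp β e ii x w := by
  unfold sqp
  refine (IsPol.const _).mul ?_
  rcases e w with t | t
  · exact (IsPol.const _).mul ((IsPol.coord _).add (IsPol.coord _))
  · exact (IsPol.const _).mul ((IsPol.coord _).sub (IsPol.coord _))

lemma isPol_uab (q : SI r0 ε0 r ε) : IsPol fun x : JP r0 r s ⊕ JP r0 r s → k => uab c β e ii x q :=
  isPol_unp (fun t => (IsPol.const _).mul (IsPol.coord _)) (fun t => IsPol.coord _) (fun w => isPol_sqp _) q.2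

end laws

end Pool.Agent.U436.CP
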