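import Pool.Agent.U436.CT.Theory

/-!
# The homology of `A (z) = ∑ a j * b j`: the part where the zeros of `A` act with sum zero
-/

set_option autoImplicit false

namespace Pool.Agent.U436.CP

open Finset Pool.Agent.U436.AS Pool.Agent.U436.CT

variable {k : Type} [Field k] {J : Type} [Fintype J] [DecidableEq J] {B : Type} [Finite B] [DecidableEq B]

/-- The coordinates `a j`, `b j`, `z`, `v i`. -/
abbrev VI (J : Type) (B : Type) : Type := (J ⊕ J) ⊕ (Unit ⊕ B)

/-- The index of `a j`. -/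
abbrev ia (j : J) : VI J B := Sum.inl (Sum.inl j)

/-- The index of `b j`. -/
abbrev ib (j : J) : VI J B := Sum.inl (Sum.inr j)

/-- The index of `z`. -/
abbrev iz : VI J B := Sum.inr (Sum.inl ())

/-- The index of `v i`. -/
abbrev iv (i : B) : VI J B := Sum.inr (Sum.inr i)

omit [DecidableEq J] in
/-- The variety `A (z) = ∑ a j * b j`, `v i * (1 - b (pl i)) = 1`. -/
def vset (A : Polynomial k) (pl : B → J) : Set (VI J B → k) :=
  {w | A.eval (w iz) = ∑ j, w (ia j) * w (ib j) ∧ ∀ i, w (iv i) * (1 - w (ib (pl i))) = 1}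

/-- Its part `b j = 0` for `j` in the list. -/
def vl (A : Polynomial k) (pl : B → J) : List J → Set (VI J B → k)
  | [] => vset A pl
  | j :: l => vl A pl l ∩ {w | w (ib j) = 0}

/-- The translation `z ↦ z + ζ`. -/
def tau (ζ : k) (w : VI J B → k) : VI J B → k := Function.update w iz (w iz + ζ)

omit [Fintype J] in
lemma tau_iz (ζ : k) (w : VI J B → k) : tau ζ w iz = w iz + ζ := Function.update_self _ _ _

omit [Fintype J] in
lemma tau_ia (ζ : k) (w : VI J B → k) (j : J) : tau ζ w (ia j) = w (ia j) :=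
  Function.update_of_ne (by rintro ⟨⟩) _ _

omit [Fintype J] in
lemma tau_ib (ζ : k) (w : VI J B → k) (j : J) : tau ζ w (ib j) = w (ib j) :=
  Function.update_of_ne (by rintro ⟨⟩) _ _

omit [Fintype J] in
lemma tau_iv (ζ : k) (w : VI J B → k) (i : B) : tau ζ w (iv i) = w (iv i) :=
  Function.update_of_ne (by rintro ⟨⟩) _ _

omit [Fintype J] in
lemma tau_tau (ζ ξ : k) (w : VI J B → k) : tau ζ (tau ξ w) = tau (ζ + ξ) w := by
  unfold tau
  rw [Function.update_self, Function.update_idem]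
  congr 1
  ring

omit [Fintype J] in
lemma tau_zero (w : VI J B → k) : tau 0 w = w := by
  unfold tau
  rw [add_zero, Function.update_eq_self]

omit [DecidableEq J] in
lemma mem_vl {A : Polynomial k} {pl : B → J} {l : List J} {w : VI J B → k} :
    w ∈ vl A pl l ↔ w ∈ vset A pl ∧ ∀ j ∈ l, w (ib j) = 0 := by
  induction l with
  | nil => simp [vl]
  | cons j l ih =>
    show w ∈ vl A pl l ∧ w (ib j) = 0 ↔ _
    rw [ih]
    simp only [List.mem_cons, forall_eq_or_imp]
    tauto

omit [DecidableEq J] in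
lemma isPol_eval {ι : Type} (A : Polynomial k) {F : (ι → k) → k} (hF : IsPol F) :
    IsPol fun x => A.eval (F x) := by
  have h1 : (fun x => A.eval (F x)) = fun x => ∑ i ∈ range (A.natDegree + 1), A.coeff i * F x ^ i := by
    funext x
    exact Polynomial.eval_eq_sum_range (F x)
  rw [h1]
  exact IsPol.sum _ fun i _ => (IsPol.const _).mul (hF.pow i)

omit [DecidableEq J] in
lemma isZeroSet_vset (A : Polynomial k) (pl : B → J) : IsZeroSet (vset A pl) := by
  have h1 : IsZeroSet {w : VI J B → k | A.eval (w iz) - ∑ j, w (ia j) * w (ib j) = 0} :=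
    isZeroSet_eq ((isPol_eval A (IsPol.coord _)).sub
      (IsPol.sum _ fun j _ => (IsPol.coord _).mul (IsPol.coord _)))
  have h2 : IsZeroSet {w : VI J B → k | ∀ i, w (iv i) * (1 - w (ib (pl i))) - 1 = 0} :=
    isZeroSet_forall fun i => ((IsPol.coord _).mul ((IsPol.const _).sub (IsPol.coord _))).sub (IsPol.const _)
  have h3 := h1.inter h2
  have h4 : ({w : VI J B → k | A.eval (w iz) - ∑ j, w (ia j) * w (ib j) = 0} ∩
      {w : VI J B → k | ∀ i, w (iv i) * (1 - w (ib (pl i))) - 1 = 0}) = vset A pl := by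
    ext w
    constructor
    · rintro ⟨h5, h6⟩
      exact ⟨sub_eq_zero.mp h5, fun i => sub_eq_zero.mp (h6 i)⟩
    · rintro ⟨h5, h6⟩
      exact ⟨sub_eq_zero.mpr h5, fun i => sub_eq_zero.mpr (h6 i)⟩
  rw [h4] at h3
  exact h3

omit [DecidableEq J] in
lemma isZeroSet_vl (A : Polynomial k) (pl : B → J) (l : List J) : IsZeroSet (vl A pl l) := by
  induction l with
  | nil => exact isZeroSet_vset A pl
  | cons j l ih => exact ih.inter (isZeroSet_eq (IsPol.coord _))

lemma isPolMap_tau (ζ : k) : IsPolMap (tau ζ : (VI J B → k) → VI J B → k) := by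
  intro q
  by_cases hq : q = iz
  · subst hq
    have : (fun x : VI J B → k => tau ζ x iz) = fun x => x iz + ζ := by
      funext x; exact tau_iz ζ x
    rw [this]
    exact (IsPol.coord _).add (IsPol.const _)
  · have : (fun x : VI J B → k => tau ζ x q) = fun x => x q := by
      funext x; exact Function.update_of_ne hq _ _
    rw [this]
    exact IsPol.coord _

lemma tau_mem {A : Polynomial k} (hA : IsAdditive A) {pl : B → J} {l : List J} {ζ : k} (hζ : A.eval ζ = 0)
    {w : VI J B → k} (hw : w ∈ vl A pl l) : tau ζ w ∈ vl A pl l := by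
  rw [mem_vl] at hw ⊢
  obtain ⟨⟨h1, h2⟩, h3⟩ := hw
  refine ⟨⟨?_, fun i => ?_⟩, fun j hj => ?_⟩
  · rw [tau_iz, hA, hζ, add_zero, h1]
    exact Finset.sum_congr rfl fun j _ => by rw [tau_ia, tau_ib]
  · rw [tau_iv, tau_ib]; exact h2 i
  · rw [tau_ib]; exact h3 j hj

lemma isAut_tau {A : Polynomial k} (hA : IsAdditive A) {pl : B → J} {l : List J} {ζ : k}
    (hζ : A.eval ζ = 0) : IsAut (vl A pl l) (tau ζ) := by
  have hζ' : A.eval (-ζ) = 0 := by rw [hA.map_neg, hζ, neg_zero]
  refine ⟨isPolMap_tau ζ, fun w hw => tau_mem hA hζ hw, tau (-ζ), isPolMap_tau _, fun w hw => tau_mem hA hζ' hw,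
    fun w _ => ?_, fun w _ => ?_⟩
  · rw [tau_tau, neg_add_cancel, tau_zero]
  · rw [tau_tau, add_neg_cancel, tau_zero]

omit [DecidableEq J] [Fintype J] in
lemma IsAut.ext {ι : Type} {X : Set (ι → k)} {g : (ι → k) → ι → k} (hg : IsAut X g) {h : (ι → k) → k}
    (hh : ∀ x ∈ X, h (g x) = h x) : IsAut (opn X h) (CT.ext g) := by
  obtain ⟨h1, h2, g', h3, h4, h5, h6⟩ := hg
  have hpol : ∀ {f : (ι → k) → ι → k}, IsPolMap f → IsPolMap (CT.ext f) := by
    rintro f hf (q | q)
    · exact isPol_restrict Sum.inl (hf q)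
    · exact IsPol.coord _
  have hmem : ∀ {f : (ι → k) → ι → k}, (∀ x ∈ X, f x ∈ X) → (∀ x ∈ X, h (f x) = h x) →
      ∀ w ∈ opn X h, CT.ext f w ∈ opn X h := by
    rintro f hf hf' w ⟨hw1, hw2⟩
    refine ⟨hf _ hw1, ?_⟩
    show w (Sum.inr ()) * h (f (w ∘ Sum.inl)) = 1
    rw [hf' _ hw1, hw2]
  refine ⟨hpol h1, hmem h2 hh, CT.ext g', hpol h3, hmem h4 fun x hx => ?_, fun w hw => ?_, fun w hw => ?_⟩
  · rw [← hh _ (h4 x hx), h6 x hx]
  · funext q
    rcases q with q | q
    · show g' (g (w ∘ Sum.inl)) q = _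
      rw [h5 _ hw.1]; rfl
    · rfl
  · funext q
    rcases q with q | q
    · show g (g' (w ∘ Sum.inl)) q = _
      rw [h6 _ hw.1]; rfl
    · rfl

end Pool.Agent.U436.CP
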